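import Pool.Agent.Y560.TG.Stm

/-!
Project TG, EXTW: isomorphisms of the closed segments of one-ended structures.
-/

set_option autoImplicit false

namespace Pool.Agent.Y954.TG

open Set
open Pool.Agent.Y560.TG
open Pool.Agent.H899R2.VP (St Adj PIso BF IsoOn idOn inv comp zipSet)
open Pool.Agent.H533R2.VO (RS lift)
open Pool.Agent.H566P (ar R2 lt ac co mk LA MB)

/-- A bijective relation as an equivalence of subtypes. -/
theorem equiv_of_rel {A A' : ℕ → Prop} {r : Set (ℕ × ℕ)} (h1 : ∀ x y, (x, y) ∈ r → A x ∧ A' y)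
    (h2 : ∀ x, A x → ∃ y, (x, y) ∈ r) (h3 : ∀ y, A' y → ∃ x, (x, y) ∈ r)
    (h4 : ∀ x y x' y', (x, y) ∈ r → (x', y') ∈ r → (x = x' ↔ y = y')) :
    ∃ φ : {k // A k} ≃ {k // A' k}, ∀ a : {k // A k}, ((a : ℕ), (φ a : ℕ)) ∈ r := by
  choose f hf using h2
  choose e he using h3
  refine ⟨⟨fun a => ⟨f a a.2, (h1 _ _ (hf a a.2)).2⟩, fun a => ⟨e a a.2, (h1 _ _ (he a a.2)).1⟩,
    fun a => ?_, fun a => ?_⟩, fun a => hf a a.2⟩
  · apply Subtype.ext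
    exact (h4 _ _ _ _ (he _ _) (hf a a.2)).2 rfl
  · apply Subtype.ext
    exact (h4 _ _ _ _ (hf _ _) (he a a.2)).1 rfl

section one

variable {Γ : Type} [Group Γ] {g : ℕ → Γ} {Y : R2} {β : Ordinal.{0}} {t : Γ → ℕ → ℕ} {m w : ℕ}

theorem bg_tr (hE : S_OEB) (hg : Function.Surjective g) (hY : MB g ⊤ Y)
    (hβ : Ordinal.omega0 ≤ β) (hO : OneEnd β Y) (h : LA g ⊤ Y t) (a z : ℕ) (γ : Γ) :
    Bg β Y a (t γ z) ↔ Bg β Y a z := by
  obtain ⟨n, rfl⟩ := hg γ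
  exact ((hE Γ g hg Y β hY hβ hO).2.2.1 n a z _ ((la_ac h _ _ _).2 rfl)).symm

theorem a_ne (hE : S_OEB) (hg : Function.Surjective g) (hY : MB g ⊤ Y)
    (hβ : Ordinal.omega0 ≤ β) (hO : OneEnd β Y) (h : LA g ⊤ Y t) (hw : Bg β Y m w) {a : ℕ}
    (ha : ¬ Bg β Y m a) (γ : Γ) : a ≠ t γ w := by
  rintro rfl
  exact ha ((bg_tr hE hg hY hβ hO h m w γ).2 hw)

theorem bg_aw (hE : S_OEB) (hg : Function.Surjective g) (hY : MB g ⊤ Y)
    (hβ : Ordinal.omega0 ≤ β) (hO : OneEnd β Y) (hw : Bg β Y m w) {a : ℕ}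
    (ha : ¬ Bg β Y m a) : Bg β Y a w :=
  ((hE Γ g hg Y β hY hβ hO).1 m a w hw).resolve_left ha

theorem bg_iff (hE : S_OEB) (hg : Function.Surjective g) (hY : MB g ⊤ Y)
    (hβ : Ordinal.omega0 ≤ β) (hO : OneEnd β Y) (h : LA g ⊤ Y t) (hw : Bg β Y m w) {a : ℕ}
    (ha : ¬ Bg β Y m a) (b : ℕ) :
    Bg β Y a b ↔ ∃ γ δ, ¬ lt Y b (t γ w) ∧ ¬ lt Y (t δ w) b ∧
      ∀ ε, (lt Y (t ε a) (t γ w) ↔ lt Y (t ε a) (t δ w)) := by
  rw [(hE Γ g hg Y β hY hβ hO).2.1 a b w (bg_aw hE hg hY hβ hO hw ha), mem_Ob hg h]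
  refine exists_congr fun γ => exists_congr fun δ => and_congr_right fun _ =>
    and_congr_right fun _ => ?_
  rw [sl_iff hg h]
  refine forall_congr' fun ε => ?_
  have hta : ¬ Bg β Y m (t ε a) := by rwa [bg_tr hE hg hY hβ hO h]
  have h1 := a_ne hE hg hY hβ hO h hw hta γ
  have h2 := a_ne hE hg hY hβ hO h hw hta δ
  exact ⟨fun h3 => h3.1, fun h3 => ⟨h3, iff_of_false h1 h2⟩⟩

theorem lr_iff (hG : S_GEO) (hE : S_OEB) (hg : Function.Surjective g) (hY : MB g ⊤ Y)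
    (hβ : Ordinal.omega0 ≤ β) (hO : OneEnd β Y) (h : LA g ⊤ Y t) (hw : Bg β Y m w) {a : ℕ}
    (ha : ¬ Bg β Y m a) (b : ℕ) :
    Lr β Y a b ↔ ¬ Bg β Y a b ∧ ∃ γ, (∀ ε, (lt Y (t ε a) b ↔ lt Y (t ε a) (t γ w)) ∧
      t ε a ≠ b) ∧ lt Y b (t γ w) := by
  have haw := bg_aw hE hg hY hβ hO hw ha
  have hta : ∀ ε, ¬ Bg β Y m (t ε a) := fun ε => by rwa [bg_tr hE hg hY hβ hO h]
  obtain ⟨G1, -, G3, -, G5, -, -, -, -, -, -, G12, -⟩ := hG Γ g hg Y hY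
  unfold Lr
  refine and_congr_right fun hb => ?_
  have hb' : b ∉ Ob Y a w := by
    rwa [← (hE Γ g hg Y β hY hβ hO).2.1 a b w haw]
  constructor
  · rintro ⟨w1, h1, h2, h3⟩
    rw [(hE Γ g hg Y β hY hβ hO).2.1 a w1 w haw] at h1
    obtain ⟨n, x', h4, h5⟩ := G12 a w w1 h1
    have h6 : x' ∈ Ob Y a w := (G3 n a w w x' h4).1 (G1 a w)
    have h7 := (G5 a w w1 h1 x' h6 h5 b hb').2.1 h3
    have h8 : t (g n) w = x' := (la_ac h _ _ _).1 h4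
    refine ⟨g n, fun ε => ?_, by rwa [h8]⟩
    have h9 := (sl_iff hg h).1 (sl_trans h2 h5) ε
    rw [h8]
    refine ⟨h9.1, fun h10 => ?_⟩
    exact a_ne hE hg hY hβ hO h hw (hta ε) (g n) ((h9.2.1 h10).trans h8.symm)
  · rintro ⟨γ, h1, h2⟩
    refine ⟨t γ w, (bg_tr hE hg hY hβ hO h a w γ).2 haw, ?_, h2⟩
    rw [sl_iff hg h]
    exact fun ε => ⟨(h1 ε).1, iff_of_false (h1 ε).2 (a_ne hE hg hY hβ hO h hw (hta ε) γ)⟩

theorem lr_orb (hg : Function.Surjective g) (h : LA g ⊤ Y t) (c : Γ) :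
    ¬ Lr β Y m (t c m) := by
  rintro ⟨-, w1, h1, h2, -⟩
  apply h1.1
  rw [orb_iff hg h]
  exact ⟨c, (((sl_iff hg h).1 h2 c).2.1 rfl)⟩

theorem orb_tr (hg : Function.Surjective g) (h : LA g ⊤ Y t) (y z : ℕ) (γ : Γ) :
    orb Y y (t γ z) ↔ orb Y y z := by
  rw [orb_iff hg h, orb_iff hg h]
  constructor
  · rintro ⟨δ, hδ⟩
    exact ⟨γ⁻¹ * δ, by rw [la_mul h, hδ, la_inv h]⟩
  · rintro ⟨δ, rfl⟩
    exact ⟨γ * δ, la_mul h _ _ _⟩

theorem lt_iff_not {x y : ℕ} (h : LA g ⊤ Y t) (hxy : x ≠ y) : lt Y x y ↔ ¬ lt Y y x :=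
  ⟨la_asymm h, fun h1 => (h.tot x y hxy).resolve_right h1⟩

end one

theorem t_EXTW (hG : S_GEO) (hE : S_OEB) (_hT : S_TRQ) : S_EXTW := by
  intro Γ _ g hg Y Y' β m m' w w' hY hY' hβ hO hO' hbf hiso hw hw' hQ
  obtain ⟨t, h, -⟩ := Pool.Agent.Y560.TG.MB.la hY
  obtain ⟨t', h', -⟩ := Pool.Agent.Y560.TG.MB.la hY'
  obtain ⟨q, -, hq1, hq2, hq3, hq4⟩ := hiso
  rw [piso_ex] at hq2
  obtain ⟨hq2, hq5⟩ := hq2
  have hqQ : ∀ a a', (a, a') ∈ q → ∀ j, (Q Y m j a ↔ Q Y' m' j a') := by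
    intro a a' haa j
    have := hq5 (2 * j) _ haa
    unfold PA at this
    rwa [if_pos (by omega), if_pos (by omega), show 2 * j / 2 = j by omega] at this
  have hqL : ∀ a a', (a, a') ∈ q → (Lr β Y m a ↔ Lr β Y' m' a') := by
    intro a a' haa
    have := hq5 1 _ haa
    unfold PA at this
    rwa [if_neg (by omega), if_neg (by omega)] at this
  -- the orbits of `m` and `m'`
  have hO2 : ∀ c d : Γ, ∃ p : Set (ℕ × ℕ), PIso (lift Y) (lift Y') p ∧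
      (t c m, t' c m') ∈ p ∧ (t d m, t' d m') ∈ p := by
    intro c d
    obtain ⟨n, rfl⟩ := hg c
    obtain ⟨k, rfl⟩ := hg d
    have h01 : (1 : Ordinal.{0}) < 2 := by norm_num
    obtain ⟨y, -, hy⟩ := hbf.forth h01 (mem_univ (t (g n) m))
    obtain ⟨z, -, hz⟩ := hy.forth zero_lt_one (mem_univ (t (g k) m))
    have h2 := hz.piso
    have h3 : ac Y n m (t (g n) m) := (la_ac h _ _ _).2 rfl
    have h4 : ac Y k m (t (g k) m) := (la_ac h _ _ _).2 rfl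
    rw [piso_ac h2 (x' := m') (y' := y) (by simp) (by simp), la_ac h'] at h3
    rw [piso_ac h2 (x' := m') (y' := z) (by simp) (by simp), la_ac h'] at h4
    refine ⟨_, h2, ?_, ?_⟩
    · rw [h3]; simp
    · rw [h4]; simp
  have O1 : ∀ c d : Γ, lt Y (t c m) (t d m) ↔ lt Y' (t' c m') (t' d m') := by
    intro c d
    obtain ⟨p, h1, h2, h3⟩ := hO2 c d
    exact piso_lt h1 h2 h3
  have O2 : ∀ c d : Γ, t c m = t d m ↔ t' c m' = t' d m' := by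
    intro c d
    obtain ⟨p, h1, h2, h3⟩ := hO2 c d
    exact piso_eq h1 h2 h3
  have O3 : ∀ (c : Γ) n, co Y n (t c m) ↔ co Y' n (t' c m') := by
    intro c n
    obtain ⟨p, h1, h2, h3⟩ := hO2 c c
    exact piso_co h1 h2
  have O4 : ∀ (c d : Γ) n, ac Y n (t c m) (t d m) ↔ ac Y' n (t' c m') (t' d m') := by
    intro c d n
    rw [la_ac h, la_ac h', ← la_mul h, ← la_mul h']
    exact O2 _ _
  -- the relation
  obtain ⟨r, hr⟩ : ∃ r : Set (ℕ × ℕ), ∀ a a', (a, a') ∈ r ↔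
      ((a, a') ∈ q ∨ ∃ c : Γ, a = t c m ∧ a' = t' c m') :=
    ⟨{u | (u.1, u.2) ∈ q ∨ ∃ c : Γ, u.1 = t c m ∧ u.2 = t' c m'}, fun a a' => Iff.rfl⟩
  have hrA : ∀ a a', (a, a') ∈ r → ¬ Bg β Y m a ∧ ¬ Bg β Y' m' a' := by
    intro a a' haa
    rcases (hr a a').1 haa with h1 | ⟨c, rfl, rfl⟩
    · exact ⟨(hq1 h1).1.1, (hq1 h1).2.1⟩
    · exact ⟨fun h2 => h2.1 ((orb_iff hg h).2 ⟨c, rfl⟩),
        fun h2 => h2.1 ((orb_iff hg h').2 ⟨c, rfl⟩)⟩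
  have hrL : ∀ a a', (a, a') ∈ r → ∀ j, (Q Y m j a ↔ Q Y' m' j a') := by
    intro a a' haa
    rcases (hr a a').1 haa with h1 | ⟨c, rfl, rfl⟩
    · exact hqQ a a' h1
    · intro j
      obtain ⟨k, rfl | rfl⟩ : ∃ k, j = 2 * k ∨ j = 2 * k + 1 := ⟨j / 2, by omega⟩
      · rw [Q_even_iff h, Q_even_iff h']; exact O1 _ _
      · rw [Q_odd_iff h, Q_odd_iff h']; exact O2 _ _
  have hrLr : ∀ a a', (a, a') ∈ r → (Lr β Y m a ↔ Lr β Y' m' a') := by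
    intro a a' haa
    rcases (hr a a').1 haa with h1 | ⟨c, rfl, rfl⟩
    · exact hqL a a' h1
    · exact iff_of_false (lr_orb hg h c) (lr_orb hg h' c)
  have hrT : ∀ a a', (a, a') ∈ r → ∀ c : Γ, (t c a, t' c a') ∈ r := by
    intro a a' haa c
    rcases (hr a a').1 haa with h1 | ⟨d, rfl, rfl⟩
    · have h2 : t c a ∈ Sp β Y m :=
        ⟨by rw [bg_tr hE hg hY hβ hO h]; exact (hq1 h1).1.1,
          by rw [orb_tr hg h]; exact (hq1 h1).1.2⟩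
      obtain ⟨y, hy⟩ := hq3 _ h2
      obtain ⟨n, rfl⟩ := hg c
      have h3 := (piso_ac hq2 (n := n) h1 hy).1 ((la_ac h _ _ _).2 rfl)
      rw [la_ac h'] at h3
      rw [hr, h3]
      exact Or.inl hy
    · rw [hr]
      exact Or.inr ⟨c * d, (la_mul h _ _ _).symm, (la_mul h' _ _ _).symm⟩
  have hq_ne : ∀ a a', (a, a') ∈ q → ∀ c : Γ, a ≠ t c m ∧ a' ≠ t' c m' := by
    intro a a' haa c
    refine ⟨?_, ?_⟩
    · rintro rfl
      exact (hq1 haa).1.2 ((orb_iff hg h).2 ⟨c, rfl⟩)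
    · rintro rfl
      exact (hq1 haa).2.2 ((orb_iff hg h').2 ⟨c, rfl⟩)
  have hr_lt1 : ∀ a a', (a, a') ∈ r → ∀ c : Γ, lt Y (t c m) a ↔ lt Y' (t' c m') a' := by
    intro a a' haa c
    obtain ⟨k, rfl⟩ := hg c
    rw [← Q_even_iff h, ← Q_even_iff h']
    exact hrL a a' haa _
  have R1 : ∀ a a' b b', (a, a') ∈ r → (b, b') ∈ r → (a = b ↔ a' = b') := by
    intro a a' b b' ha hb
    rcases (hr a a').1 ha with h1 | ⟨c, rfl, rfl⟩ <;> rcases (hr b b').1 hb with h2 | ⟨d, rfl, rfl⟩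
    · exact piso_eq hq2 h1 h2
    · exact iff_of_false (hq_ne _ _ h1 d).1 (hq_ne _ _ h1 d).2
    · exact iff_of_false (hq_ne _ _ h2 c).1.symm (hq_ne _ _ h2 c).2.symm
    · exact O2 c d
  have R2 : ∀ a a' b b', (a, a') ∈ r → (b, b') ∈ r → (lt Y a b ↔ lt Y' a' b') := by
    intro a a' b b' ha hb
    rcases (hr a a').1 ha with h1 | ⟨c, rfl, rfl⟩ <;> rcases (hr b b').1 hb with h2 | ⟨d, rfl, rfl⟩
    · exact piso_lt hq2 h1 h2
    · rw [lt_iff_not h (hq_ne _ _ h1 d).1, lt_iff_not h' (hq_ne _ _ h1 d).2]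
      exact not_congr (hr_lt1 _ _ ha d)
    · exact hr_lt1 _ _ hb c
    · exact O1 c d
  have R3 : ∀ n a a' b b', (a, a') ∈ r → (b, b') ∈ r → (ac Y n a b ↔ ac Y' n a' b') := by
    intro n a a' b b' ha hb
    rw [la_ac h, la_ac h']
    exact R1 _ _ _ _ (hrT _ _ ha _) hb
  have R4 : ∀ n a a', (a, a') ∈ r → (co Y n a ↔ co Y' n a') := by
    intro n a a' ha
    rcases (hr a a').1 ha with h1 | ⟨c, rfl, rfl⟩
    · exact piso_co hq2 h1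
    · exact O3 c n
  -- comparison with the orbit of `w`
  have C0 : ∀ c c', (c, c') ∈ r → (lt Y c w ↔ lt Y' c' w') := by
    intro c c' hc
    have h1 := hrL c c' hc
    by_cases hs : sl Y m c w
    · have hs' : sl Y' m' c' w' := fun k => by rw [← h1, ← hQ]; exact hs k
      rw [(hE Γ g hg Y β hY hβ hO).2.2.2.1 m c w (hrA c c' hc).1 hw hs,
        (hE Γ g hg Y' β hY' hβ hO').2.2.2.1 m' c' w' (hrA c c' hc).2 hw' hs']
      exact hrLr c c' hc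
    · have hs' : ¬ sl Y' m' c' w' := fun h2 => hs fun k => by rw [h1, hQ]; exact h2 k
      have G13 := (hG Γ g hg Y hY).2.2.2.2.2.2.2.2.2.2.2.2 m c w hs
      have G13' := (hG Γ g hg Y' hY').2.2.2.2.2.2.2.2.2.2.2.2 m' c' w' hs'
      rw [G13, G13']
      simp only [h1, hQ]
  have C1 : ∀ c c', (c, c') ∈ r → ∀ γ : Γ, (lt Y c (t γ w) ↔ lt Y' c' (t' γ w')) := by
    intro c c' hc γ
    have h1 := C0 _ _ (hrT c c' hc γ⁻¹)
    rw [← la_lt h γ, ← la_lt h' γ, la_inv' h, la_inv' h'] at h1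
    exact h1
  have N1 : ∀ c c', (c, c') ∈ r → ∀ γ : Γ, t γ w ≠ c ∧ t' γ w' ≠ c' := fun c c' hc γ =>
    ⟨(a_ne hE hg hY hβ hO h hw (hrA c c' hc).1 γ).symm,
      (a_ne hE hg hY' hβ hO' h' hw' (hrA c c' hc).2 γ).symm⟩
  have C2 : ∀ c c', (c, c') ∈ r → ∀ γ : Γ, (lt Y (t γ w) c ↔ lt Y' (t' γ w') c') := by
    intro c c' hc γ
    rw [lt_iff_not h (N1 c c' hc γ).1, lt_iff_not h' (N1 c c' hc γ).2]
    exact not_congr (C1 c c' hc γ)
  have R5 : ∀ a a' b b', (a, a') ∈ r → (b, b') ∈ r → (Bg β Y a b ↔ Bg β Y' a' b') := by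
    intro a a' b b' ha hb
    rw [bg_iff hE hg hY hβ hO h hw (hrA a a' ha).1,
      bg_iff hE hg hY' hβ hO' h' hw' (hrA a a' ha).2]
    refine exists_congr fun γ => exists_congr fun δ => and_congr (not_congr (C1 _ _ hb γ))
      (and_congr (not_congr (C2 _ _ hb δ)) (forall_congr' fun ε => ?_))
    rw [C1 _ _ (hrT _ _ ha ε) γ, C1 _ _ (hrT _ _ ha ε) δ]
  have R6 : ∀ a a' b b', (a, a') ∈ r → (b, b') ∈ r → (Lr β Y a b ↔ Lr β Y' a' b') := by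
    intro a a' b b' ha hb
    rw [lr_iff hG hE hg hY hβ hO h hw (hrA a a' ha).1,
      lr_iff hG hE hg hY' hβ hO' h' hw' (hrA a a' ha).2]
    refine and_congr (not_congr (R5 _ _ _ _ ha hb)) (exists_congr fun γ => and_congr
      (forall_congr' fun ε => ?_) (C1 _ _ hb γ))
    rw [R2 _ _ _ _ (hrT _ _ ha ε) hb, C1 _ _ (hrT _ _ ha ε) γ]
    exact and_congr_right fun _ => not_congr (R1 _ _ _ _ (hrT _ _ ha ε) hb)
  obtain ⟨φ, hφ⟩ := equiv_of_rel (A := fun k => ¬ Bg β Y m k) (A' := fun k => ¬ Bg β Y' m' k)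
    (r := r) hrA (by
      intro x hx
      by_cases h1 : orb Y m x
      · obtain ⟨c, rfl⟩ := (orb_iff hg h).1 h1
        exact ⟨t' c m', (hr _ _).2 (Or.inr ⟨c, rfl, rfl⟩)⟩
      · obtain ⟨y, hy⟩ := hq3 x ⟨hx, h1⟩
        exact ⟨y, (hr _ _).2 (Or.inl hy)⟩) (by
      intro x hx
      by_cases h1 : orb Y' m' x
      · obtain ⟨c, rfl⟩ := (orb_iff hg h').1 h1
        exact ⟨t c m, (hr _ _).2 (Or.inr ⟨c, rfl, rfl⟩)⟩
      · obtain ⟨y, hy⟩ := hq4 x ⟨hx, h1⟩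
        exact ⟨y, (hr _ _).2 (Or.inl hy)⟩) (fun x y x' y' hx hy => R1 x y x' y' hx hy)
  exact ⟨φ, fun a b => (R2 _ _ _ _ (hφ a) (hφ b)).symm,
    fun n a b => (R3 n _ _ _ _ (hφ a) (hφ b)).symm,
    fun n a => (R4 n _ _ (hφ a)).symm,
    fun a b => (R5 _ _ _ _ (hφ a) (hφ b)).symm,
    fun a b => (R6 _ _ _ _ (hφ a) (hφ b)).symm⟩

end Pool.Agent.Y954.TG
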